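import Mathlib
import Pool.Agent.P.MP_84759c_al.OGroup

set_option autoImplicit false
set_option linter.unusedSectionVars false

open scoped commutatorElement

namespace Pool.Agent.P.MP_84759c_al.IS

open Pool.Agent.P.MP_84759c_al

section
variable {N : Type*} [Group N]

/-- Torsion-free groups. -/
def TF (N : Type*) [Group N] : Prop := ∀ (x : N) (n : ℕ), n ≠ 0 → x ^ n = 1 → x = 1

theorem TF.quot_center [Group.IsNilpotent N] (h : TF N) : TF (N ⧸ Subgroup.center N) := by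
  intro x n hn hx
  obtain ⟨x, rfl⟩ := QuotientGroup.mk'_surjective _ x
  rw [← map_pow, QuotientGroup.mk'_apply, QuotientGroup.eq_one_iff] at hx
  rw [QuotientGroup.mk'_apply, QuotientGroup.eq_one_iff, Subgroup.mem_center_iff]
  refine nil_ind x (fun g => g * x = x * g) (by simp) fun g hg => ?_
  have e : (g⁻¹ * x * g * x⁻¹) ^ n * x ^ n = x ^ n := by
    rw [← Commute.mul_pow hg, inv_mul_cancel_right]
    calc (g⁻¹ * x * g) ^ n = g⁻¹ * (x ^ n * g) := by
          rw [← mul_assoc]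
          simpa using conj_pow (a := g⁻¹) (b := x) (i := n)
      _ = x ^ n := by rw [← Subgroup.mem_center_iff.1 hx g, inv_mul_cancel_left]
  have e1 := h _ n hn (mul_eq_right.1 e)
  calc g * x = g * (g⁻¹ * x * g * x⁻¹) * x := by rw [e1, mul_one]
    _ = x * g := by group

/-- The third relator. -/
def rC (p : ℕ) (y a t : N) : N := a * y * a⁻¹ * (t * y * t⁻¹) ^ p * (y ^ (p + 1))⁻¹

/-- The last word. -/
def rD (x y a : N) : N := (⁅x, a * y * a⁻¹⁆ ^ 2)⁻¹ * ⁅x, y⁆ ^ 3

/-- The sequence of commutators. -/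
def bb (x y a : N) (j : ℤ) : N := ⁅a ^ (-j) * x * a ^ j, y⁆

theorem map_rC {M : Type*} [Group M] (f : N →* M) (p : ℕ) (y a t : N) :
    f (rC p y a t) = rC p (f y) (f a) (f t) := by simp [rC]

theorem map_rD {M : Type*} [Group M] (f : N →* M) (x y a : N) :
    f (rD x y a) = rD (f x) (f y) (f a) := by simp [rD, map_commutatorElement]

theorem map_bb {M : Type*} [Group M] (f : N →* M) (x y a : N) (j : ℤ) :
    f (bb x y a j) = bb (f x) (f y) (f a) j := by simp [bb, map_commutatorElement]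

theorem bb_zero (x y a : N) : bb x y a 0 = ⁅x, y⁆ := by simp [bb]

theorem comm_conj {x y a : N} (h : bb x y a 1 ∈ Subgroup.center N) :
    ⁅x, a * y * a⁻¹⁆ = bb x y a 1 := by
  have e1 : ⁅x, a * y * a⁻¹⁆ = a * bb x y a 1 * a⁻¹ := by
    simp only [bb, commutatorElement_def]; group
  rw [e1, Subgroup.mem_center_iff.mp h a, mul_inv_cancel_right]

theorem rec_of_central (p : ℕ) (x y a t : N) (hx : ⁅x, a * t⁆ ∈ Subgroup.center N)
    (ha : ⁅a, t⁆ ∈ Subgroup.center N) (hy : rC p y a t ∈ Subgroup.center N)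
    (hb : ∀ j, bb x y a j ∈ Subgroup.center N) (j : ℤ) :
    (bb x y a (j + 1))⁻¹ * bb x y a (j + 1 + 1) = ((bb x y a j)⁻¹ * bb x y a (j + 1)) ^ p := by
  have hc : ∀ i j, Commute (bb x y a i) (bb x y a j) := fun i j =>
    Subgroup.mem_center_iff.mp (hb j) _
  have h0 : ∀ j : ℤ, ⁅a ^ (-j) * x * a ^ j, a * y * a⁻¹⁆ = bb x y a (j + 1) := fun j => by
    have e : bb (a ^ (-j) * x * a ^ j) y a 1 = bb x y a (j + 1) := by
      simp only [bb]; congr 1; group
    rw [comm_conj (e ▸ hb _), e]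
  have h1 : ∀ j : ℤ, ⁅a ^ (-j) * x * a ^ j, t * y * t⁻¹⁆ = bb x y a (j + -1) := by
    intro j
    have e1 : ⁅a ^ (-j) * x * a ^ j, t * y * t⁻¹⁆ =
        t * ⁅t⁻¹ * (a ^ (-j) * x * a ^ j) * t, y⁆ * t⁻¹ := by
      simp only [commutatorElement_def]; group
    have e2 : ⁅t⁻¹ * (a ^ (-j) * x * a ^ j) * t, y⁆ = bb x y a (j + -1) := by
      apply comm_congr_left
      rw [← QuotientGroup.eq]
      let π : N →* N ⧸ Subgroup.center N := QuotientGroup.mk' _
      have c1 : Commute (π x) (π a ^ (-(-1 : ℤ)) * π t) := by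
        rw [← commutatorElement_eq_one_iff_commute]
        have := (QuotientGroup.eq_one_iff _).mpr hx
        change π _ = 1 at this
        simpa [map_commutatorElement] using this
      have c2 : Commute (π a) (π t) := by
        rw [← commutatorElement_eq_one_iff_commute]
        have := (QuotientGroup.eq_one_iff _).mpr ha
        change π _ = 1 at this
        simpa [map_commutatorElement] using this
      change π _ = π _
      simp only [map_mul, map_inv, map_zpow]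
      exact (conj_shift c1 c2 j).symm
    rw [e1, e2, Subgroup.mem_center_iff.mp (hb _) t, mul_inv_cancel_right]
  have h2 : bb x y a (j + 1 + 1) * bb x y a j ^ p = bb x y a (j + 1) ^ (p + 1) := by
    have e0 := comm_pow_right (x := a ^ (-(j + 1)) * x * a ^ (j + 1)) (y := t * y * t⁻¹)
      (by rw [h1]; exact hb _) p
    have e1 := comm_mul_right (x := a ^ (-(j + 1)) * x * a ^ (j + 1)) (y := a * y * a⁻¹)
      (y' := (t * y * t⁻¹) ^ p) (by rw [e0, h1]; exact pow_mem (hb _) _)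
    rw [comm_congr_right hy, comm_pow_right (hb (j + 1)), e0, h0, h1, add_neg_cancel_right] at e1
    exact e1.symm
  rw [(hc _ _).inv_left.mul_pow, inv_pow, eq_inv_mul_iff_mul_eq, ← mul_assoc,
    ((hc j (j + 1)).inv_right.pow_left p).eq, mul_assoc, ((hc j _).pow_left p).eq, h2, pow_succ',
    inv_mul_cancel_left]

theorem pow_trivial [Group.IsNilpotent N] (hT : TF N) {p : ℕ} (hp : 2 ≤ p) (a y ξ : N)
    (hc : ∀ j, bb ξ y a j ∈ Subgroup.center N) (hd : ∀ j, bb ξ y a (j + 1) = bb ξ y a j ^ p) :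
    ∀ j, bb ξ y a j = 1 := by
  revert hc hd
  refine nil_ind a⁻¹ (fun ξ => (∀ j, bb ξ y a j ∈ Subgroup.center N) →
    (∀ j, bb ξ y a (j + 1) = bb ξ y a j ^ p) → ∀ j, bb ξ y a j = 1)
    (fun _ _ j => by simp [bb]) ?_ ξ
  intro ξ ih hc hd
  obtain ⟨n, rfl⟩ : ∃ n, p = n + 1 := ⟨p - 1, by omega⟩
  have e : ∀ j : ℤ, bb (ξ⁻¹ * a⁻¹ * ξ * a⁻¹⁻¹) y a j = bb ξ y a j ^ n := by
    intro j
    have e1 : a ^ (-j) * (ξ⁻¹ * a⁻¹ * ξ * a⁻¹⁻¹) * a ^ j =
        (a ^ (-j) * ξ * a ^ j)⁻¹ * (a ^ (-(j + 1)) * ξ * a ^ (j + 1)) := by group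
    rw [bb, e1, comm_inv_mul_left (hc j) (hc (j + 1))]
    change (bb ξ y a j)⁻¹ * bb ξ y a (j + 1) = _
    rw [hd, pow_succ', inv_mul_cancel_left]
  have := ih (fun j => by rw [e]; exact pow_mem (hc j) _)
    (fun j => by rw [e, e, hd, ← pow_mul, ← pow_mul, mul_comm])
  exact fun j => hT _ n (by omega) (by rw [← e]; exact this j)

theorem bb_diff {x y a : N} (hb : ∀ j, bb x y a j ∈ Subgroup.center N) (j : ℤ) :
    bb (x⁻¹ * a⁻¹ * x * a) y a j = (bb x y a j)⁻¹ * bb x y a (j + 1) := by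
  have e1 : a ^ (-j) * (x⁻¹ * a⁻¹ * x * a) * a ^ j =
      (a ^ (-j) * x * a ^ j)⁻¹ * (a ^ (-(j + 1)) * x * a ^ (j + 1)) := by group
  rw [bb, e1, comm_inv_mul_left (hb j) (hb (j + 1))]
  rfl

end

theorem const_nil {p : ℕ} (hp : 2 ≤ p) (N : Type) [Group N] [Group.IsNilpotent N] :
    TF N → ∀ x y a t : N, ⁅x, a * t⁆ ∈ Subgroup.center N → ⁅a, t⁆ ∈ Subgroup.center N →
      rC p y a t ∈ Subgroup.center N → ⁅x, y⁆ ∈ Subgroup.center N →
      ∀ j : ℤ, bb x y a j = ⁅x, y⁆ := by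
  refine Group.nilpotent_center_quotient_ind (P := fun N _ _ =>
    TF N → ∀ x y a t : N, ⁅x, a * t⁆ ∈ Subgroup.center N → ⁅a, t⁆ ∈ Subgroup.center N →
      rC p y a t ∈ Subgroup.center N → ⁅x, y⁆ ∈ Subgroup.center N →
      ∀ j : ℤ, bb x y a j = ⁅x, y⁆) N ?_ ?_
  · intro G _ _ _ x y a t _ _ _ _ j
    exact Subsingleton.elim _ _
  · intro G _ _ ih hT x y a t hx ha hy hd
    let π : G →* G ⧸ Subgroup.center G := QuotientGroup.mk' _
    have hπ : ∀ z ∈ Subgroup.center G, π z = 1 := fun z hz => (QuotientGroup.eq_one_iff _).mpr hz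
    have hb : ∀ j, bb x y a j ∈ Subgroup.center G := fun j => by
      have := ih hT.quot_center (π x) (π y) (π a) (π t)
        (by rw [← map_mul, ← map_commutatorElement, hπ _ hx]; exact one_mem _)
        (by rw [← map_commutatorElement, hπ _ ha]; exact one_mem _)
        (by rw [← map_rC, hπ _ hy]; exact one_mem _)
        (by rw [← map_commutatorElement, hπ _ hd]; exact one_mem _) j
      rw [← map_bb, ← map_commutatorElement, hπ _ hd] at this
      exact (QuotientGroup.eq_one_iff _).1 this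
    have h3 := pow_trivial hT hp a y (x⁻¹ * a⁻¹ * x * a)
      (fun j => by rw [bb_diff hb]; exact mul_mem (inv_mem (hb j)) (hb (j + 1)))
      (fun j => by rw [bb_diff hb, bb_diff hb]; exact rec_of_central p x y a t hx ha hy hb j)
    have h4 : ∀ j, bb x y a (j + 1) = bb x y a j := fun j => by
      have := h3 j
      rw [bb_diff hb] at this
      exact (inv_mul_eq_one.mp this).symm
    intro j
    rw [← bb_zero x y a]
    induction j using Int.induction_on with
    | zero => rfl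
    | succ j ih => rw [h4, ih]
    | pred j ih => rw [← h4, sub_add_cancel, ih]

section
variable {N : Type} [Group N] [LinearOrder N] [MulLeftMono N] [MulRightMono N]

theorem tf_of_order : TF N := fun x n hn h => by
  rcases lt_trichotomy x 1 with c | c | c
  · exact absurd h (pow_lt_one' c hn).ne
  · exact c
  · exact absurd h (one_lt_pow' c hn).ne'

theorem small_root {d w : N} (hd : 1 ≤ d) {n : ℕ} (hn : n ≠ 0) (h : ∀ m : ℕ, (w ^ n) ^ m ≤ d)
    (m : ℕ) : w ^ m ≤ d := by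
  rcases le_total w 1 with c | c
  · exact (pow_le_one' c m).trans hd
  · refine le_trans ?_ (h m)
    rw [← pow_mul]
    exact pow_le_pow_right' c (Nat.le_mul_of_pos_left _ (Nat.pos_of_ne_zero hn))

/-- The three relators are bounded by the commutator. -/
def Bd (p : ℕ) (x y a t : N) : Prop :=
  (⁅x, a * t⁆ ≤ ⁅x, y⁆ ∧ ⁅x, a * t⁆⁻¹ ≤ ⁅x, y⁆) ∧ (⁅a, t⁆ ≤ ⁅x, y⁆ ∧ ⁅a, t⁆⁻¹ ≤ ⁅x, y⁆) ∧
    (rC p y a t ≤ ⁅x, y⁆ ∧ (rC p y a t)⁻¹ ≤ ⁅x, y⁆)

theorem Bd.one_le {p : ℕ} {x y a t : N} (h : Bd p x y a t) : 1 ≤ ⁅x, y⁆ := by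
  rcases le_total 1 ⁅a, t⁆ with c | c
  · exact c.trans h.2.1.1
  · exact (one_le_inv'.mpr c).trans h.2.1.2

/-- The key inequality in nilpotent ordered groups. -/
theorem nil_key [Group.IsNilpotent N] {p : ℕ} (hp : 2 ≤ p) {x y a t : N} (h : Bd p x y a t) :
    1 ≤ rD x y a ∧ (1 < ⁅x, y⁆ → 1 < rD x y a) := by
  have hd := h.one_le
  have := smallSub_normal hd
  let π : N →* N ⧸ smallSub hd := QuotientGroup.mk' _
  have hs : Function.Surjective π := QuotientGroup.mk'_surjective _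
  have hπ : ∀ z ∈ smallSub hd, π z = 1 := fun z hz => (QuotientGroup.eq_one_iff _).mpr hz
  have hT : TF (N ⧸ smallSub hd) := fun w n hn hw => by
    obtain ⟨w, rfl⟩ := hs w
    rw [← map_pow] at hw
    obtain ⟨h1, h2⟩ := (QuotientGroup.eq_one_iff _).1 hw
    rw [← inv_pow] at h2
    exact hπ _ ⟨small_root hd hn h1, small_root hd hn h2⟩
  have hc : ⁅π x, π y⁆ ∈ Subgroup.center (N ⧸ smallSub hd) := by
    rw [← map_commutatorElement]
    exact central_mod_small hd le_rfl ((inv_le_one'.mpr hd).trans hd) π hs hπ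
  have h1 := const_nil hp (N ⧸ smallSub hd) hT (π x) (π y) (π a) (π t)
    (by rw [← map_mul, ← map_commutatorElement]; exact central_mod_small hd h.1.1 h.1.2 π hs hπ)
    (by rw [← map_commutatorElement]; exact central_mod_small hd h.2.1.1 h.2.1.2 π hs hπ)
    (by rw [← map_rC]; exact central_mod_small hd h.2.2.1 h.2.2.2 π hs hπ) hc 1
  have h3 : ⁅x, y⁆⁻¹ * rD x y a ∈ smallSub hd := by
    rw [← QuotientGroup.eq_one_iff]
    change π _ = 1
    rw [map_mul, map_inv, map_rD, map_commutatorElement, rD, comm_conj (h1 ▸ hc), h1]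
    group
  have h4 := h3.2 1
  have h5 := h3.2 2
  rw [mul_inv_rev, inv_inv] at h4 h5
  rw [pow_one] at h4
  refine ⟨inv_le_one'.mp (mul_le_iff_le_one_left'.mp h4), fun c => lt_of_not_ge fun c' => ?_⟩
  have h6 : ⁅x, y⁆ ≤ (rD x y a)⁻¹ * ⁅x, y⁆ := le_mul_of_one_le_left' (one_le_inv'.2 c')
  have h7 := (pow_le_pow_left' h6 2).trans h5
  rw [pow_two] at h7
  exact c.not_ge (mul_le_iff_le_one_left'.mp h7)

end

end Pool.Agent.P.MP_84759c_al.IS
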