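import Mathlib
import Pool.Agent.P.MP_84759c_al.IR.Model2
import Pool.Agent.P.MP_84759c_al.IS.Nil

set_option autoImplicit false
set_option linter.unusedSectionVars false

open LaurentPolynomial
open scoped commutatorElement

namespace Pool.Agent.P.MP_84759c_al.IS

open Pool.Agent.P.MP_84759c_al Pool.Agent.P.MP_84759c_al.IR

/-- The data of the ordered group with parameter `p`. -/
structure Tgt (p : ℕ) (B : Type) [CommRing B] [Algebra ℚ B] where
  t : Fin 2 → Bˣ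
  ev1 : B →+* ℚ
  evp : B →+* ℚ
  u : ℚˣ
  hu : (u : ℚ) = p
  rel : (t 0 : B) + p * t 1 = p + 1
  h1 : ∀ i, ev1 (t i) = 1
  hp : ∀ q, evp (chi t q) = ((u ^ (q 0 - q 1) : ℚˣ) : ℚ)
  ch : ℕ → Lam × B → Prop
  hP : Chain (Wf ev1) ch
  CQ : (Fin 2 → ℤ) → Prop
  hQ : IsACone CQ
  hQa : ∀ q, CQ q → CQ (-q) → q = 0

theorem exists_tgt {p : ℕ} (hp : p ≠ 0) : ∃ (B : Type) (_ : CommRing B) (_ : Algebra ℚ B),
    IsDomain B ∧ IsNoetherianRing B ∧ Nonempty (Tgt p B) := by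
  let a : Fin 2 → Polynomial ℚ :=
    ![((p : Polynomial ℚ) + 1) - (p : Polynomial ℚ) * Polynomial.X, Polynomial.X]
  let δ : Polynomial ℚ := ∏ i, a i
  have hp' : (p : ℚ) ≠ 0 := Nat.cast_ne_zero.2 hp
  have e1 : ∀ i, Polynomial.evalRingHom 1 (a i) = 1 := fun i => by fin_cases i <;> simp [a]
  have e2 : Polynomial.evalRingHom (p : ℚ)⁻¹ (a 0) = p := by simp [a, hp']
  have e3 : Polynomial.evalRingHom (p : ℚ)⁻¹ (a 1) = (p : ℚ)⁻¹ := by simp [a]
  have u1 : IsUnit (Polynomial.evalRingHom 1 δ) := by simp only [δ, map_prod, e1]; simp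
  have u2 : IsUnit (Polynomial.evalRingHom (p : ℚ)⁻¹ δ) := by
    simp only [δ, Fin.prod_univ_two, map_mul, e2, e3]; simp [hp']
  have hδ : δ ≠ 0 := fun h => by simp [h] at u1
  let B := Localization.Away δ
  have hdom : IsDomain B :=
    IsLocalization.isDomain_localization (powers_le_nonZeroDivisors_of_noZeroDivisors hδ)
  have hu : ∀ i, IsUnit (algebraMap (Polynomial ℚ) B (a i)) := fun i =>
    isUnit_of_dvd_unit (map_dvd _ (Finset.dvd_prod_of_mem a (Finset.mem_univ i)))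
      (IsLocalization.Away.algebraMap_isUnit δ)
  obtain ⟨P, hP⟩ := exists_chain (Wf (IsLocalization.Away.lift δ u1 : B →+* ℚ)) (Wf_top _)
    (Wf_anti _)
  obtain ⟨PQ, hPQ, hPQa⟩ := exists_acone0 (Fin 2 → ℚ)
  let c : (Fin 2 → ℤ) →+ (Fin 2 → ℚ) :=
    { toFun := fun q i => q i
      map_zero' := by ext; simp
      map_add' := fun a b => by ext; simp }
  refine ⟨B, inferInstance, inferInstance, hdom, inferInstance, ⟨⟨fun i => (hu i).unit,
    IsLocalization.Away.lift δ u1, IsLocalization.Away.lift δ u2, Units.mk0 p hp', rfl, ?_, ?_, ?_,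
    P, hP, fun q => PQ (c q), hPQ.comap c, ?_⟩⟩⟩
  · simp [a]
  · intro i
    simp only [IsUnit.unit_spec, IsLocalization.Away.lift_eq, e1]
  · intro q
    rw [map_chi _ _ (fun i => Units.mk0 (p : ℚ) hp' ^ (![1, -1] : Fin 2 → ℤ) i), chi_zpow]
    · simp [sub_eq_add_neg]
    · intro i
      simp only [IsUnit.unit_spec, IsLocalization.Away.lift_eq]
      fin_cases i
      · simpa using e2
      · simpa using e3
  · intro q h2 h3
    rw [map_neg] at h3
    have := hPQa _ h2 h3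
    ext i
    have h4 := congrFun this i
    simpa [c] using h4

namespace Tgt

variable {p : ℕ} {B : Type} [CommRing B] [Algebra ℚ B] (M : Tgt p B)

/-- The triangular group data. -/
noncomputable def td : TriData (Fin 2 → ℤ) Lam B ℚ where
  ca := fun q => T (q 0 - q 1)
  cb := chi M.t
  ca_zero := by simp
  cb_zero := chi_zero _
  ca_add := fun a b => by rw [← T_add]; congr 1; simp only [Pi.add_apply]; ring
  cb_add := chi_add _
  ta := evL M.u
  tb := M.evp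
  compat := fun q => by rw [M.hp, evL, eval₂_T]

theorem ta_ca (q : Fin 2 → ℤ) : M.td.ta (M.td.ca q) = (p : ℚ) ^ (q 0 - q 1) := by
  rw [M.td.compat]
  change M.evp (chi M.t q) = _
  rw [M.hp, Units.val_zpow_eq_zpow_val, M.hu]

theorem step (j : ℕ) {γ : Tri M.td} (h : Tri M.td) (hq : γ.q = 0) (hx : γ.pr ∈ Wf M.ev1 j) :
    γ.pr - (h * γ * h⁻¹).pr ∈ Wf M.ev1 (j + 1) := by
  rw [mem_Wf]
  constructor
  · have e : (γ.pr - (h * γ * h⁻¹).pr).1 = γ.f * (1 - M.td.ca (-h.q)) := by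
      simp only [Tri.pr, Tri.conj_f hq, Prod.fst_sub]; ring
    rw [e, pow_succ]
    refine Ideal.mul_mem_mul hx.1 ?_
    rw [Ia, RingHom.mem_ker]
    simp [td, evL]
  · have e : (γ.pr - (h * γ * h⁻¹).pr).2 = γ.g * (1 - M.td.cb h.q) := by
      simp only [Tri.pr, Tri.conj_g hq, Prod.snd_sub]; ring
    rw [e, pow_succ]
    refine Ideal.mul_mem_mul hx.2 ?_
    change 1 - chi M.t h.q ∈ _
    rw [RingHom.mem_ker, map_sub, map_one, map_chi M.ev1 M.t (fun _ => 1) M.h1, chi_one, sub_self]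

/-- The cone on the two modules. -/
def cm (L : ℕ → Prop) : Lam × B → Prop := chainCone (Wf M.ev1) M.ch L

/-- The positive cone. -/
def cone (a : Tri M.td) : Prop := triCone M.CQ (M.cm fun _ => True) (AddMonoidHom.id ℚ) a

theorem cm_conj (L : ℕ → Prop) {γ : Tri M.td} (h : Tri M.td) (hq : γ.q = 0) (hγ : M.cm L γ.pr) :
    M.cm L (h * γ * h⁻¹).pr :=
  M.hP.cone_of_sub (fun j hj => by rw [← neg_sub]; exact neg_mem (M.step j h hq hj)) hγ

theorem cm_lev (x : Lam × B) : ∃ j₀ : ℕ, ∀ m ≥ j₀, M.cm (fun j => j < m) x →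
    M.cm (fun _ => True) x := by
  by_cases hx : M.cm (fun _ => True) x
  · exact ⟨0, fun _ _ _ => hx⟩
  · have hx' := hx
    simp only [cm, chainCone] at hx'
    push Not at hx'
    obtain ⟨j, -, h2, h3⟩ := hx'
    exact ⟨j + 1, fun m hm h => absurd (h j (by omega) h2) h3⟩

variable [IsDomain B] [IsNoetherianRing B]

theorem cm_anti {x : Lam × B} (h1 : M.cm (fun _ => True) x) (h2 : M.cm (fun _ => True) (-x)) :
    x = 0 :=
  Wf_inter _ fun j => M.hP.mem_of_ker (L := fun _ => True) (fun _ _ => trivial) h1 h2 j trivial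

theorem cm_acone : IsACone (M.cm fun _ => True) := M.hP.isACone fun _ _ => trivial

theorem tcone : IsTCone M.cone := by
  refine tri_tcone (MonoidHom.id _) M.hQ M.hQa M.cm_acone
    (fun γ h hq hγ => M.cm_conj _ h hq hγ) _ fun γ h h2 h3 => ?_
  have h4 := M.cm_anti h2 h3
  have h5 : γ.f = 0 := congrArg Prod.fst h4
  have h6 : γ.g = 0 := congrArg Prod.snd h4
  simp [h5, h6]

theorem eq_cz {a : Tri M.td} (hq : a.q = 0) (h : a.pr = 0) : a = cz M.td (.ofAdd a.z) :=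
  Tri.ext (congrArg Prod.fst h) (congrArg Prod.snd h) rfl hq

theorem cone_cz (z : ℚ) : M.cone (cz M.td (.ofAdd z)) ↔ 0 ≤ z :=
  ⟨fun h => (h.2 rfl).2 (by
      have : (cz M.td (.ofAdd z)).pr = 0 := rfl
      rw [this, neg_zero]; exact M.cm_acone.zero),
    fun h => ⟨M.hQ.zero, fun _ => ⟨M.cm_acone.zero, fun _ => h⟩⟩⟩

theorem cz_central (z : Multiplicative ℚ) : cz M.td z ∈ Subgroup.center (Tri M.td) := by
  rw [Subgroup.mem_center_iff]
  intro c
  ext <;> simp [cz, M.td.ca_zero, M.td.cb_zero, add_comm]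

/-- The centre is convex. -/
theorem convex {r : Tri M.td} {z z' : Multiplicative ℚ} (h1 : M.cone (r * cz M.td z))
    (h2 : M.cone (r⁻¹ * cz M.td z')) : r.q = 0 ∧ r.pr = 0 := by
  have hq : r.q = 0 := M.hQa _ (by simpa [cz] using h1.1) (by simpa [cz] using h2.1)
  have hq' : r⁻¹.q = 0 := by simp [hq]
  have e1 := (h1.2 (by simp [cz, hq])).1
  have e2 := (h2.2 (by simp [cz, hq])).1
  rw [Tri.pr_mul hq rfl] at e1
  rw [Tri.pr_mul hq' rfl, Tri.pr_inv hq] at e2
  have e : ∀ z, (cz M.td z).pr = 0 := fun _ => rfl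
  rw [e, add_zero] at e1 e2
  exact ⟨hq, M.cm_anti e1 e2⟩

theorem cone_anti (a : Tri M.td) (h1 : M.cone a) (h2 : M.cone a⁻¹) : a = 1 := by
  obtain ⟨hq, h⟩ := M.convex (r := a) (z := 1) (z' := 1) (by simpa using h1) (by simpa using h2)
  rw [M.eq_cz hq h] at h1 h2 ⊢
  rw [← map_inv, ← ofAdd_neg, cone_cz] at h2
  rw [cone_cz] at h1
  rw [show a.z = 0 by linarith]
  exact map_one _

/-- The nilpotent ordered quotients. -/
theorem exists_nil (m : ℕ) : ∃ (N : Type) (_ : Group N) (_ : LinearOrder N) (π : Tri M.td →* N),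
    MulLeftMono N ∧ MulRightMono N ∧ Group.IsNilpotent N ∧
      ∀ a, 1 ≤ π a ↔ triCone M.CQ (M.cm fun j => j < m) 0 a := by
  have hC : IsACone (M.cm fun j => j < m) := M.hP.isACone fun j hj => by omega
  obtain ⟨N, _, _, π, hl, hr, hs, hπ⟩ := (tri_tcone (MonoidHom.id (Tri M.td)) M.hQ M.hQa hC
    (fun γ h hq hγ => M.cm_conj _ h hq hγ) 0 fun γ h _ _ => ⟨rfl, rfl⟩).exists_quot
  refine ⟨N, _, _, π, hl, hr, tri_nilpotent (MonoidHom.id _) M.hQ 0 (fun γ h _ _ => ⟨rfl, rfl⟩)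
    (fun j x => x ∈ Wf M.ev1 j) m (fun _ => Wf_top _ _) (fun j γ h hq hγ => M.step j h hq hγ)
    (fun j hj x hx => ?_) π hs hπ, hπ⟩
  exact ⟨M.hP.cone_of_mem fun i hi => M.hP.anti' (by omega) hx,
    M.hP.cone_of_mem fun i hi => M.hP.anti' (by omega) (neg_mem hx)⟩

/-- The four elements on which the identity fails. -/
theorem exists_tuple : ∃ x y a t : Tri M.td, ⁅x, a * t⁆ = 1 ∧ ⁅a, t⁆ = 1 ∧ rC p y a t = 1 ∧
    ⁅x, y⁆ = cz M.td (.ofAdd 1) ∧ rD x y a = cz M.td (.ofAdd (3 - 2 * p)) := by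
  have hd : ⁅fx M.td, gy M.td (.ofAdd 1)⁆ = cz M.td (.ofAdd 1) := by rw [comm_fx_gy]; simp
  have c0 : ∀ i, M.td.cb (Pi.single i 1) = M.t i := chi_single M.t
  refine ⟨fx _, gy _ (.ofAdd 1), dq _ (.ofAdd (Pi.single 0 1)), dq _ (.ofAdd (Pi.single 1 1)),
    ?_, comm_dq_dq _ _ _, ?_, hd, ?_⟩
  · rw [← map_mul, comm_fx_dq]
    simp [td]
  · rw [rC, conj_dq_gy, conj_dq_gy, ← map_pow (gy M.td), ← map_pow (gy M.td), ← map_inv (gy M.td),
      ← map_mul (gy M.td), ← map_mul (gy M.td), ← map_one (gy M.td)]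
    congr 1
    apply Multiplicative.toAdd.injective
    simp [c0, M.rel]
  · rw [rD, hd, conj_dq_gy, comm_fx_gy, ← map_pow (cz M.td), ← map_pow (cz M.td),
      ← map_inv (cz M.td), ← map_mul (cz M.td)]
    congr 1
    apply Multiplicative.toAdd.injective
    have := M.ta_ca (Pi.single 0 1)
    rw [M.td.compat] at this
    simp [this]
    ring

end Tgt

end Pool.Agent.P.MP_84759c_al.IS
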