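import Mathlib
import Pool.Agent.P.MP_84759c_al.IS.Mod

set_option autoImplicit false
set_option linter.unusedSectionVars false

namespace Pool.Agent.P.MP_84759c_al.IS

open Pool.Agent.P.MP_84759c_al Pool.Agent.P.MP_84759c_al.IR

namespace Tgt

variable {p : ℕ} {B : Type} [CommRing B] [Algebra ℚ B] (M : Tgt p B) [IsDomain B]
  [IsNoetherianRing B]

theorem core {Q D R Γ : Type} [AddCommGroup Q] [CommRing D] [Algebra ℚ D] [CommRing R]
    [Algebra ℚ R] [Algebra R D] [IsScalarTower ℚ R D] [Group Γ] (T' : TriData Q D D D)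
    (hta : ∀ x, T'.ta x = x) (htb : ∀ x, T'.tb x = x) (I : Ideal R)
    (hc : ∀ q, ∃ r ∈ I, 1 - T'.ca q = algebraMap R D r) (ι : Γ →* Tri T') (EA EB : Submodule R D)
    (hA : ∀ w, (ι w).f ∈ EA) (hB : ∀ w, (ι w).g ∈ EB) (ρ : Γ →* Tri M.td) (σ : D × D →+ Lam × B)
    (φ : D →+ ℚ) (κ : Q →+ (Fin 2 → ℤ)) (hσ : ∀ w, σ (ι w).pr = (ρ w).pr)
    (hφ : ∀ w, φ (ι w).z = (ρ w).z) (hκ : ∀ w, κ (ι w).q = (ρ w).q)
    (hK : ∀ x, (∀ j : ℕ, x ∈ I ^ j • (EA * EB)) → φ x = 0) {PQ : Q → Prop} (hPQ : IsACone PQ)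
    (hPa : ∀ q, PQ q → PQ (-q) → q = 0) (s : Finset Γ)
    (h0 : ∀ w ∈ s, (ρ w).q = 0 → (ι w).q = 0)
    (h1 : ∀ w ∈ s, (ρ w).q = 0 → (ρ w).pr = 0 → (ι w).pr = 0) (hs : ∀ w ∈ s, ¬ M.cone (ρ w)) :
    ∃ (N : Type) (_ : Group N) (_ : LinearOrder N), MulLeftMono N ∧ MulRightMono N ∧
      Group.IsNilpotent N ∧ derivedSeries N 2 ≤ Subgroup.center N ∧
      ∃ π : Γ →* N, ∀ w ∈ s, ¬ 1 ≤ π w := by
  classical
  have hcb : ∀ q, T'.cb q = T'.ca q := fun q => by rw [← htb (T'.cb q), ← T'.compat, hta]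
  let W₁ : ℕ → Submodule ℚ D := fun j => (I ^ j • (EA * EB)).restrictScalars ℚ
  have anti : ∀ (E : Submodule R D) {i j : ℕ}, i ≤ j → I ^ j • E ≤ I ^ i • E := fun E i j hij =>
    Submodule.smul_mono_left (Ideal.pow_le_pow_right hij)
  obtain ⟨m₀, hm₀⟩ := exists_approx_functional φ.toRatLinearMap W₁
    (fun i j hij x hx => anti _ hij hx) hK (s.image fun w => (ι w).z)
  choose j₀ hj₀ using M.cm_lev
  obtain ⟨m, hm1, hm2⟩ : ∃ m, m₀ ≤ m ∧ ∀ w ∈ s, j₀ (ρ w).pr ≤ m :=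
    ⟨max m₀ (s.sup fun w => j₀ (ρ w).pr), le_max_left _ _, fun w hw =>
      le_trans (Finset.le_sup (f := fun w => j₀ (ρ w).pr) hw) (le_max_right _ _)⟩
  obtain ⟨ψ, hψ1, hψ2⟩ := hm₀ m hm1
  let W₀ : ℕ → Submodule ℚ (D × D) := fun j =>
    ((I ^ j • EA).restrictScalars ℚ).prod ((I ^ j • EB).restrictScalars ℚ)
  have hW₀ : ∀ {i j : ℕ}, i ≤ j → ∀ x ∈ W₀ j, x ∈ W₀ i := fun hij x hx =>
    ⟨anti _ hij hx.1, anti _ hij hx.2⟩
  have top : ∀ w, (ι w).pr ∈ W₀ 0 := fun w =>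
    ⟨by simpa [Tri.pr] using hA w, by simpa [Tri.pr] using hB w⟩
  let W₂ : ℕ → Submodule ℚ (D × D) := fun j => Nat.casesOn j ⊤ W₀
  obtain ⟨P₂, hP₂⟩ := exists_chain W₂ (fun _ => trivial) (fun j x hx => by
    cases j with
    | zero => trivial
    | succ j => exact hW₀ (Nat.le_succ j) x hx)
  let C₂ := chainCone W₂ P₂ (fun j => j < m + 1)
  have hC₁ : IsACone (M.cm fun j => j < m) := M.hP.isACone fun j hj => by omega
  have hC₂ : IsACone C₂ := hP₂.isACone fun j hj => by omega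
  let CM : D × D → Prop := fun x => M.cm (fun j => j < m) (σ x) ∧
    (M.cm (fun j => j < m) (σ (-x)) → C₂ x)
  have hCM : IsACone CM := (hC₁.comap σ).lex hC₂
  let CQ : Q → Prop := fun q => M.CQ (κ q) ∧ (M.CQ (κ (-q)) → PQ q)
  have hQ : IsACone CQ := (M.hQ.comap κ).lex hPQ
  have hQa : ∀ q, CQ q → CQ (-q) → q = 0 := fun q a b =>
    hPa q (a.2 b.1) (b.2 (by rw [neg_neg]; exact a.1))
  have hq : ∀ γ, (ι γ).q = 0 → (ρ γ).q = 0 := fun γ h => by rw [← hκ, h, map_zero]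
  have hσc : ∀ γ h, σ (ι h * ι γ * (ι h)⁻¹).pr = (ρ h * ρ γ * (ρ h)⁻¹).pr := fun γ h => by
    simpa only [map_mul, map_inv] using hσ (h * γ * h⁻¹)
  have one : ∀ (E : Submodule R D) (j : ℕ) (q : Q), ∀ x ∈ I ^ j • E,
      x - x * T'.ca q ∈ I ^ (j + 1) • E := fun E j q x hx => by
    obtain ⟨r, hr, e⟩ := hc q
    rw [← mul_one_sub, e, mul_comm, ← Algebra.smul_def, pow_succ', Submodule.mul_smul]
    exact Submodule.smul_mem_smul hr hx
  have step : ∀ j (γ h : Γ), (ι γ).q = 0 → (ι γ).pr ∈ W₀ j →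
      (ι γ).pr - (ι h * ι γ * (ι h)⁻¹).pr ∈ W₀ (j + 1) := fun j γ h hq0 hγ => by
    simp only [Tri.pr, Tri.conj_f hq0, Tri.conj_g hq0, hcb, mul_comm (T'.ca _)]
    exact ⟨one _ _ _ _ hγ.1, one _ _ _ _ hγ.2⟩
  have hψ : ∀ γ h : Γ, CM (ι γ).pr → CM (-(ι γ).pr) →
      ψ.toAddMonoidHom (T'.ta (ι γ).f * T'.tb (ι h).g) = 0 ∧
      ψ.toAddMonoidHom (T'.ta (ι h).f * T'.tb (ι γ).g) = 0 := by
    intro γ h ha hb
    have h3 : (ι γ).pr ∈ W₀ m := hP₂.mem_of_ker (L := fun j => j < m + 1) (fun j hj => by omega)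
      (ha.2 hb.1) (hb.2 (by rw [neg_neg]; exact ha.1)) m (by omega)
    simp only [hta, htb]
    refine ⟨hψ2 _ ?_, hψ2 _ ?_⟩
    · change _ ∈ I ^ m • (EA * EB)
      rw [← smul_mul_assoc]
      exact Submodule.mul_mem_mul h3.1 (hB h)
    · change _ ∈ I ^ m • (EA * EB)
      rw [← mul_smul_comm]
      exact Submodule.mul_mem_mul (hA h) h3.2
  have hT : IsTCone (fun γ => triCone CQ CM ψ.toAddMonoidHom (ι γ)) := by
    refine tri_tcone ι hQ hQa hCM ?_ _ hψ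
    intro γ h hq0 hγ
    refine ⟨by rw [hσc]; exact M.cm_conj _ _ (hq γ hq0) (hσ γ ▸ hγ.1), fun h2 => ?_⟩
    have h3 : M.cm (fun j => j < m) (σ (-(ι γ).pr)) := by
      have e0 : (ρ h * ρ γ * (ρ h)⁻¹).q = 0 := by rw [Tri.conj_q, hq γ hq0]
      rw [map_neg, hσc, ← Tri.pr_inv e0] at h2
      have := M.cm_conj _ (ρ h)⁻¹ (by rw [Tri.inv_q, e0, neg_zero]) h2
      rw [show (ρ h)⁻¹ * (ρ h * ρ γ * (ρ h)⁻¹)⁻¹ * (ρ h)⁻¹⁻¹ = (ρ γ)⁻¹ by group,
        Tri.pr_inv (hq γ hq0)] at this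
      rwa [map_neg, hσ]
    refine hP₂.cone_of_sub (fun j hj => ?_) (hγ.2 h3)
    rw [← neg_sub]
    refine neg_mem ?_
    cases j with
    | zero =>
      have h5 := top (h * γ * h⁻¹)
      rw [map_mul, map_mul, map_inv] at h5
      exact sub_mem (top γ) h5
    | succ j => exact step j γ h hq0 hj
  obtain ⟨N, _, _, π, hl, hr, hsurj, hπ⟩ := hT.exists_quot
  refine ⟨N, inferInstance, inferInstance, hl, hr, ?_, cbm_quot ι hT π hsurj hπ, π, ?_⟩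
  · refine tri_nilpotent ι hQ ψ.toAddMonoidHom hψ (fun j x => σ x ∈ Wf M.ev1 j ∧ x ∈ W₀ j) m
      (fun γ => ⟨Wf_top _ _, top γ⟩) (fun j γ h hq0 hγ => ⟨?_, step j γ h hq0 hγ.2⟩) ?_ π hsurj hπ
    · rw [map_sub, hσc, hσ]
      exact M.step j _ (hq γ hq0) (hσ γ ▸ hγ.1)
    · intro j hj x hx
      have key : ∀ y : D × D, σ y ∈ Wf M.ev1 j → y ∈ W₀ j → CM y := fun y h2 h3 =>
        ⟨M.hP.cone_of_mem fun i hi => M.hP.anti' (by omega) h2, fun _ =>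
          hP₂.cone_of_mem fun i hi => hW₀ (show i ≤ j by omega) _ h3⟩
      exact ⟨key x hx.1 hx.2, key (-x) (by rw [map_neg]; exact neg_mem hx.1) (neg_mem hx.2)⟩
  · intro w hw hc
    rw [hπ] at hc
    apply hs w hw
    obtain ⟨hc1, hc2⟩ := hc
    refine ⟨hκ w ▸ hc1.1, fun hq0 => ?_⟩
    obtain ⟨hc3, hc4⟩ := hc2 (h0 w hw hq0)
    have h2 := hj₀ _ m (hm2 w hw) (hσ w ▸ hc3.1)
    refine ⟨h2, fun h3 => ?_⟩
    have h5 := hc4 (by rw [h1 w hw hq0 (M.cm_anti h2 h3), neg_zero]; exact hCM.zero)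
    have h6 := hψ1 _ (Finset.mem_image_of_mem (fun w => (ι w).z) hw)
    change 0 ≤ ψ (ι w).z at h5
    rw [h6] at h5
    exact h5.trans_eq (hφ w)

end Tgt

/-- One element kills the intersection of the powers. -/
theorem exists_kill {R D : Type} [CommRing R] [IsNoetherianRing R] [AddCommGroup D] [Module R D]
    (I : Ideal R) (E : Submodule R D) (hE : E.FG) :
    ∃ a : R, a - 1 ∈ I ∧ ∀ x, (∀ j : ℕ, x ∈ I ^ j • E) → a • x = 0 := by
  have hfin : Module.Finite R E := Module.Finite.iff_fg.2 hE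
  obtain ⟨a, h1, h2⟩ := Submodule.exists_sub_one_mem_and_smul_eq_zero_of_fg_of_le_smul I
    (⨅ j : ℕ, I ^ j • ⊤ : Submodule R E) (IsNoetherian.noetherian _) fun x hx => by
      obtain ⟨r, hr⟩ := (Ideal.mem_iInf_smul_pow_eq_bot_iff I _).mp hx
      rw [← hr]
      exact Submodule.smul_mem_smul r.2 hx
  refine ⟨a, h1, fun x hx => ?_⟩
  have hx0 : x ∈ E := by simpa using hx 0
  exact congrArg Subtype.val (h2 ⟨x, hx0⟩ ((Submodule.mem_iInf _).2 fun j =>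
    (Submodule.mem_smul_top_iff _ _ _).2 (hx j)))

/-- A sum of powers of `p` with fixed coefficients of nonzero sum is nonzero for large `p`. -/
theorem exists_bound {α : Type} (s : Finset α) (c : α → ℚ) (h : ∑ i ∈ s, c i ≠ 0) :
    ∃ n : ℕ, ∀ p > n, ∀ d : α → ℤ, ∑ i ∈ s, c i * (p : ℚ) ^ d i ≠ 0 := by
  classical
  obtain ⟨b, hb⟩ := IsLocalization.exist_integer_multiples (nonZeroDivisors ℤ) s c
  choose! e he using hb
  have hb0 : ((b : ℤ) : ℚ) ≠ 0 := Int.cast_ne_zero.2 (nonZeroDivisors.coe_ne_zero b)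
  simp only [eq_intCast, zsmul_eq_mul] at he
  have h1 : ∑ i ∈ s, e i ≠ 0 := fun h0 => h (mul_left_cancel₀ hb0 (by
    rw [Finset.mul_sum, mul_zero, ← Finset.sum_congr rfl he, ← Int.cast_sum, h0, Int.cast_zero]))
  refine ⟨(∑ i ∈ s, e i).natAbs + 1, fun p hp d h0 => ?_⟩
  have hp0 : (p : ℚ) ≠ 0 := Nat.cast_ne_zero.2 (by omega)
  let K : ℕ := s.sup fun i => (d i).natAbs
  have hK : ∀ i ∈ s, (((d i + K).toNat : ℕ) : ℤ) = d i + K := fun i hi => by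
    have : (d i).natAbs ≤ K := Finset.le_sup (f := fun i => (d i).natAbs) hi
    omega
  have h2 : ∑ i ∈ s, e i * (p : ℤ) ^ (d i + K).toNat = 0 := by
    apply Int.cast_injective (α := ℚ)
    push_cast
    rw [← mul_zero ((b : ℤ) * (p : ℚ) ^ (K : ℤ)), ← h0, Finset.mul_sum]
    refine Finset.sum_congr rfl fun i hi => ?_
    rw [he i hi, ← zpow_natCast, hK i hi, zpow_add₀ hp0]
    ring
  have h3 : ((p : ℤ) - 1) ∣ ∑ i ∈ s, e i := by
    rw [← dvd_neg, ← zero_sub, ← h2, ← Finset.sum_sub_distrib]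
    refine Finset.dvd_sum fun i _ => ?_
    rw [← mul_sub_one]
    exact Dvd.dvd.mul_left (by simpa using sub_dvd_pow_sub_pow (p : ℤ) 1 _) _
  have := Int.natAbs_le_of_dvd_ne_zero h3 h1
  omega

end Pool.Agent.P.MP_84759c_al.IS
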