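import Mathlib
import Pool.Agent.P.MP_84759c_al.IS.Core

set_option autoImplicit false
set_option linter.unusedSectionVars false

open MvPolynomial

namespace Pool.Agent.P.MP_84759c_al.IS

open Pool.Agent.P.MP_84759c_al Pool.Agent.P.MP_84759c_al.IR

/-- The group ring of the free abelian group. -/
abbrev RR (k : ℕ) : Type := AddMonoidAlgebra ℚ (Fin k → ℤ)

/-- The ring of the generic entries. -/
abbrev DD (k : ℕ) : Type := MvPolynomial (Fin 3 × Fin k) (RR k)

variable {k : ℕ}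

/-- The image of a lattice point. -/
noncomputable def sg (q : Fin k → ℤ) : DD k := C (AddMonoidAlgebra.single q 1)

theorem sg_zero : sg (0 : Fin k → ℤ) = 1 := map_one C

theorem sg_add (a b : Fin k → ℤ) : sg (a + b) = sg a * sg b := by
  rw [sg, sg, sg, ← map_mul, AddMonoidAlgebra.single_mul_single, one_mul]

/-- The generic triangular group data. -/
noncomputable def TU (k : ℕ) : TriData (Fin k → ℤ) (DD k) (DD k) (DD k) where
  ca := sg
  cb := sg
  ca_zero := sg_zero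
  cb_zero := sg_zero
  ca_add := sg_add
  cb_add := sg_add
  ta := RingHom.id _
  tb := RingHom.id _
  compat := fun _ => rfl

/-- The generic tuple. -/
noncomputable def iU (k : ℕ) : FreeGroup (Fin k) →* Tri (TU k) :=
  FreeGroup.lift fun i => ⟨X (0, i), X (1, i), X (2, i), Pi.single i 1⟩

/-- The span of one row of variables. -/
noncomputable def EE (k : ℕ) (r : Fin 3) : Submodule (RR k) (DD k) :=
  Submodule.span (RR k) (Set.range fun i => X (r, i))

theorem EE_sg {r : Fin 3} {x : DD k} (hx : x ∈ EE k r) (q : Fin k → ℤ) : sg q * x ∈ EE k r := by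
  rw [sg, ← smul_eq_C_mul]
  exact Submodule.smul_mem _ _ hx

theorem iU_mem (w : FreeGroup (Fin k)) : (iU k w).f ∈ EE k 0 ∧ (iU k w).g ∈ EE k 1 := by
  induction w using FreeGroup.induction_on with
  | C1 => simp
  | of i =>
    simp only [iU, FreeGroup.lift_apply_of]
    exact ⟨Submodule.subset_span ⟨i, rfl⟩, Submodule.subset_span ⟨i, rfl⟩⟩
  | inv_of i ih =>
    rw [map_inv, Tri.inv_f, Tri.inv_g, mul_comm]
    exact ⟨neg_mem (EE_sg ih.1 _), neg_mem (EE_sg ih.2 _)⟩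
  | mul a b ha hb =>
    rw [map_mul, Tri.mul_f, Tri.mul_g, mul_comm]
    exact ⟨add_mem (EE_sg ha.1 _) hb.1, add_mem ha.2 (EE_sg hb.2 _)⟩

theorem EE_ext {S : Type} [CommRing S] (a b : DD k →+* S) (r : Fin 3) (h : ∀ c, a (C c) = b (C c))
    (h' : ∀ i, a (X (r, i)) = b (X (r, i))) {x : DD k} (hx : x ∈ EE k r) : a x = b x := by
  induction hx using Submodule.span_induction with
  | mem x hx => obtain ⟨i, rfl⟩ := hx; exact h' i
  | zero => simp
  | add x y _ _ hx hy => rw [map_add, map_add, hx, hy]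
  | smul c x _ hx => rw [smul_eq_C_mul, map_mul, map_mul, hx, h]

theorem EE_zero {S : Type} [CommRing S] (a : DD k →+* S) (r : Fin 3)
    (h' : ∀ i, a (X (r, i)) = 0) {x : DD k} (hx : x ∈ EE k r) : a x = 0 := by
  induction hx using Submodule.span_induction with
  | mem x hx => obtain ⟨i, rfl⟩ := hx; exact h' i
  | zero => simp
  | add x y _ _ hx hy => rw [map_add, hx, hy, add_zero]
  | smul c x _ hx => rw [smul_eq_C_mul, map_mul, hx, mul_zero]

/-- The specialisation attached to a character and values of the variables. -/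
noncomputable def spec {S : Type} [CommRing S] [Algebra ℚ S] (c : (Fin k → ℤ) → S) (h0 : c 0 = 1)
    (h1 : ∀ a b, c (a + b) = c a * c b) (x : Fin 3 → Fin k → S) : DD k →+* S :=
  eval₂Hom (AddMonoidAlgebra.lift ℚ S (Fin k → ℤ)
    ⟨⟨fun q => c q.toAdd, h0⟩, fun a b => h1 a.toAdd b.toAdd⟩).toRingHom fun i => x i.1 i.2

section
variable {S : Type} [CommRing S] [Algebra ℚ S] (c : (Fin k → ℤ) → S) (h0 : c 0 = 1)
    (h1 : ∀ a b, c (a + b) = c a * c b) (x : Fin 3 → Fin k → S)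

theorem spec_X (r : Fin 3) (i : Fin k) : spec c h0 h1 x (X (r, i)) = x r i := by simp [spec]

theorem spec_C (a : RR k) : spec c h0 h1 x (C a) = ∑ q ∈ a.coeff.support, a.coeff q • c q := by
  simp [spec, AddMonoidAlgebra.lift_apply, Finsupp.sum]

theorem spec_sg (q : Fin k → ℤ) : spec c h0 h1 x (sg q) = c q := by simp [spec, sg]

end

namespace Tgt

variable {p : ℕ} {B : Type} [CommRing B] [Algebra ℚ B] (M : Tgt p B) (v : Fin k → Tri M.td)

theorem exists_spec : ∃ (κ : (Fin k → ℤ) →+ (Fin 2 → ℤ)) (α : DD k →+* Lam) (β : DD k →+* B)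
    (φ : DD k →+* ℚ), (∀ x, κ x = ∑ i, x i • (v i).q) ∧ (∀ q, α (sg q) = M.td.ca (κ q)) ∧
      (∀ q, β (sg q) = M.td.cb (κ q)) ∧ (∀ q, φ (sg q) = M.td.ta (M.td.ca (κ q))) ∧
      (∀ a : RR k, φ (C a) = ∑ q ∈ a.coeff.support, a.coeff q * (p : ℚ) ^ (κ q 0 - κ q 1)) ∧
      (∀ x ∈ EE k 0, β x = 0 ∧ φ x = M.td.ta (α x)) ∧
      (∀ x ∈ EE k 1, α x = 0 ∧ φ x = M.td.tb (β x)) ∧
      ∀ w, α (iU k w).f = (FreeGroup.lift v w).f ∧ β (iU k w).g = (FreeGroup.lift v w).g ∧
        φ (iU k w).z = (FreeGroup.lift v w).z ∧ κ (iU k w).q = (FreeGroup.lift v w).q := by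
  let κ : (Fin k → ℤ) →+ (Fin 2 → ℤ) :=
    (Fintype.linearCombination ℤ fun i => (v i).q).toAddMonoidHom
  let α := spec (fun q => M.td.ca (κ q)) (by simp [M.td.ca_zero]) (by simp [M.td.ca_add])
    ![fun i => (v i).f, 0, 0]
  let β := spec (fun q => M.td.cb (κ q)) (by simp [M.td.cb_zero]) (by simp [M.td.cb_add])
    ![0, fun i => (v i).g, 0]
  let φ := spec (fun q => M.td.ta (M.td.ca (κ q))) (by simp [M.td.ca_zero])
    (by simp [M.td.ca_add]) ![fun i => M.td.ta (v i).f, fun i => M.td.tb (v i).g, fun i => (v i).z]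
  have a1 : ∀ q, α (sg q) = M.td.ca (κ q) := spec_sg _ _ _ _
  have a2 : ∀ q, β (sg q) = M.td.cb (κ q) := spec_sg _ _ _ _
  have a3 : ∀ q, φ (sg q) = M.td.ta (M.td.ca (κ q)) := spec_sg _ _ _ _
  have b1 : ∀ x ∈ EE k 0, β x = 0 ∧ φ x = M.td.ta (α x) := fun x hx =>
    ⟨EE_zero β 0 (fun i => spec_X _ _ _ _ _ _) hx, EE_ext φ (M.td.ta.comp α) 0
      (fun c => by simp only [φ, α, RingHom.comp_apply, spec_C, map_sum, map_rat_smul])
      (fun i => by simp only [φ, α, RingHom.comp_apply, spec_X]; rfl) hx⟩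
  have b2 : ∀ x ∈ EE k 1, α x = 0 ∧ φ x = M.td.tb (β x) := fun x hx =>
    ⟨EE_zero α 1 (fun i => spec_X _ _ _ _ _ _) hx, EE_ext φ (M.td.tb.comp β) 1
      (fun c => by
        simp only [φ, β, RingHom.comp_apply, spec_C, map_sum, map_rat_smul, M.td.compat])
      (fun i => by simp only [φ, β, RingHom.comp_apply, spec_X]; rfl) hx⟩
  refine ⟨κ, α, β, φ, fun x => Fintype.linearCombination_apply ℤ (fun i => (v i).q) x, a1, a2,
    a3, fun a => by simp only [φ, spec_C, M.ta_ca, smul_eq_mul], b1, b2, fun w => ?_⟩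
  have ea : ∀ q, (TU k).ca q = sg q := fun _ => rfl
  have eb : ∀ q, (TU k).cb q = sg q := fun _ => rfl
  have ta : ∀ x, (TU k).ta x = x := fun _ => rfl
  have tb : ∀ x, (TU k).tb x = x := fun _ => rfl
  induction w using FreeGroup.induction_on with
  | C1 => simp
  | of i =>
    simp only [iU, FreeGroup.lift_apply_of]
    exact ⟨spec_X _ _ _ _ _ _, spec_X _ _ _ _ _ _, spec_X _ _ _ _ _ _, by simp [κ]⟩
  | inv_of i ih =>
    obtain ⟨i1, i2, i3, i4⟩ := ih
    simp only [map_inv, Tri.inv_f, Tri.inv_g, Tri.inv_z, Tri.inv_q, map_neg, map_add, map_mul, ea,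
      eb, ta, tb, a1, a2, a3, i1, i2, i3, i4, (b1 _ (iU_mem _).1).2, (b2 _ (iU_mem _).2).2,
      M.td.compat, and_self]
  | mul a b ha hb =>
    obtain ⟨i1, i2, i3, i4⟩ := ha
    obtain ⟨j1, j2, j3, j4⟩ := hb
    simp only [map_mul, Tri.mul_f, Tri.mul_g, Tri.mul_z, Tri.mul_q, map_add, ea, eb, ta, tb, a1,
      a2, i1, i2, i3, i4, j1, j2, j3, j4, (b1 _ (iU_mem _).1).2, (b2 _ (iU_mem _).2).2, and_self]

end Tgt

end Pool.Agent.P.MP_84759c_al.IS
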