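import Mathlib
import Pool.Agent.P.MP_84759c_al.IS.Univ

set_option autoImplicit false
set_option linter.unusedSectionVars false

open MvPolynomial

namespace Pool.Agent.P.MP_84759c_al.IS

open Pool.Agent.P.MP_84759c_al Pool.Agent.P.MP_84759c_al.IR

variable {k : ℕ}

/-- The words of `s` are not positive in some nilpotent centre-by-metabelian ordered group. -/
def Real (s : Finset (FreeGroup (Fin k))) : Prop :=
  ∃ (N : Type) (_ : Group N) (_ : LinearOrder N), MulLeftMono N ∧ MulRightMono N ∧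
    Group.IsNilpotent N ∧ derivedSeries N 2 ≤ Subgroup.center N ∧
    ∃ π : FreeGroup (Fin k) →* N, ∀ w ∈ s, ¬ 1 ≤ π w

theorem approx_data (U0 U1 : Finset (FreeGroup (Fin k))) : ∃ n : ℕ, ∀ p > n,
    ∀ (B : Type) [CommRing B] [Algebra ℚ B] [IsDomain B] [IsNoetherianRing B] (M : Tgt p B)
      (v : Fin k → Tri M.td) (s : Finset (FreeGroup (Fin k))),
      (∀ w ∈ U0, (FreeGroup.lift v w).q = 0) → (∀ w ∈ U1, (FreeGroup.lift v w).pr = 0) →
      (∀ w ∈ s, (FreeGroup.lift v w).q = 0 → w ∈ U0) →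
      (∀ w ∈ s, (FreeGroup.lift v w).q = 0 → (FreeGroup.lift v w).pr = 0 → w ∈ U1) →
      (∀ w ∈ s, ¬ M.cone (FreeGroup.lift v w)) → Real s := by
  classical
  let c0 : (Fin k → ℤ) →+ (Fin k → ℚ) :=
    { toFun := fun q i => q i
      map_zero' := by ext; simp
      map_add' := fun a b => by ext; simp }
  let V : Submodule ℚ (Fin k → ℚ) := Submodule.span ℚ ((fun w => c0 (iU k w).q) '' U0)
  let c : (Fin k → ℤ) →+ (Fin k → ℚ) ⧸ V := V.mkQ.toAddMonoidHom.comp c0
  have hc : ∀ x, x ∈ c.ker ↔ c0 x ∈ V := fun x => Submodule.Quotient.mk_eq_zero V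
  let J : Ideal (DD k) := Ideal.span ((fun h => sg h - 1) '' c.ker ∪
    ((fun w => (iU k w).f) '' U1 ∪ (fun w => (iU k w).g) '' U1))
  let mk := Ideal.Quotient.mk J
  let f : (Fin k → ℤ) →+ Additive (DD k ⧸ J) :=
    { toFun := fun q => Additive.ofMul (mk (sg q))
      map_zero' := by rw [sg_zero, map_one]; rfl
      map_add' := fun a b => by rw [sg_add, map_mul]; rfl }
  let f' := QuotientAddGroup.lift c.ker f fun h hh => by
    change mk (sg h) = mk 1
    exact Ideal.Quotient.eq.2 (Ideal.subset_span (Or.inl ⟨h, hh, rfl⟩))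
  let T' : TriData ((Fin k → ℤ) ⧸ c.ker) (DD k ⧸ J) (DD k ⧸ J) (DD k ⧸ J) :=
    { ca := fun q => (f' q).toMul
      cb := fun q => (f' q).toMul
      ca_zero := by rw [map_zero]; rfl
      cb_zero := by rw [map_zero]; rfl
      ca_add := fun a b => by rw [map_add]; rfl
      cb_add := fun a b => by rw [map_add]; rfl
      ta := RingHom.id _
      tb := RingHom.id _
      compat := fun _ => rfl }
  let η : Tri (TU k) →* Tri T' := MonoidHom.mk'
    (fun a => ⟨mk a.f, mk a.g, mk a.z, QuotientAddGroup.mk a.q⟩) fun a b => by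
      ext
      · simp only [Tri.mul_f, map_add, map_mul]; rfl
      · simp only [Tri.mul_g, map_add, map_mul]; rfl
      · simp only [Tri.mul_z, map_add, map_mul]; rfl
      · rfl
  let ε : RR k →ₐ[ℚ] ℚ := AddMonoidAlgebra.lift ℚ ℚ (Fin k → ℤ) 1
  let I : Ideal (RR k) := RingHom.ker ε
  let E : Fin 3 → Submodule (RR k) (DD k ⧸ J) := fun r =>
    (EE k r).map (Ideal.Quotient.mkₐ (RR k) J).toLinearMap
  have hE : ∀ r, (E r).FG := fun r => (Submodule.fg_span (Set.finite_range _)).map _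
  have hN : IsNoetherianRing (RR k) := Algebra.FiniteType.isNoetherianRing ℚ _
  obtain ⟨a, ha1, ha2⟩ := exists_kill I (E 0 * E 1) ((hE 0).mul (hE 1))
  obtain ⟨n, hn⟩ := exists_bound a.coeff.support a.coeff (by
    have : ε a = 1 := by
      rw [RingHom.mem_ker, map_sub, map_one, sub_eq_zero] at ha1
      exact ha1
    simp only [ε, AddMonoidAlgebra.lift_apply, Finsupp.sum, MonoidHom.one_apply, smul_eq_mul,
      mul_one] at this
    rw [this]
    exact one_ne_zero)
  obtain ⟨PQ, hPQ, hPa⟩ := exists_acone0 ((Fin k → ℚ) ⧸ V)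
  refine ⟨n, fun p hp B _ _ _ _ M v s u0 u1 s0 s1 hs => ?_⟩
  obtain ⟨κ, α, β, φ, k0, a1, a2, a3, a4, b1, b2, hw⟩ := M.exists_spec v
  have hκ : c.ker ≤ κ.ker := fun x hx => by
    let κ' : (Fin k → ℚ) →ₗ[ℚ] (Fin 2 → ℚ) :=
      Fintype.linearCombination ℚ fun i j => ((v i).q j : ℚ)
    have e : ∀ x j, κ' (c0 x) j = (κ x j : ℤ) := fun x j => by
      simp [κ', k0, c0, Fintype.linearCombination_apply]
    have : V ≤ LinearMap.ker κ' := Submodule.span_le.2 (by
      rintro _ ⟨w, hw', rfl⟩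
      ext j
      rw [e, (hw w).2.2.2, u0 w hw']
      simp)
    ext j
    have h2 := congrFun (this ((hc x).1 hx)) j
    rw [e] at h2
    exact Int.cast_eq_zero.1 h2
  have hJ : ∀ x ∈ J, α x = 0 ∧ β x = 0 ∧ φ x = 0 := fun x hx => by
    have : J ≤ RingHom.ker α ⊓ (RingHom.ker β ⊓ RingHom.ker φ) := Ideal.span_le.2 (by
      rintro _ (⟨h, hh, rfl⟩ | ⟨w, hw', rfl⟩ | ⟨w, hw', rfl⟩)
      · have : κ h = 0 := hκ hh
        simp [RingHom.mem_ker, a1, a2, a3, this, M.td.ca_zero, M.td.cb_zero]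
      · have e : α (iU k w).f = 0 := (hw w).1.trans (congrArg Prod.fst (u1 w hw'))
        exact ⟨e, (b1 _ (iU_mem w).1).1, by rw [SetLike.mem_coe, RingHom.mem_ker,
          (b1 _ (iU_mem w).1).2, e, map_zero]⟩
      · have e : β (iU k w).g = 0 := (hw w).2.1.trans (congrArg Prod.snd (u1 w hw'))
        exact ⟨(b2 _ (iU_mem w).2).1, e, by rw [SetLike.mem_coe, RingHom.mem_ker,
          (b2 _ (iU_mem w).2).2, e, map_zero]⟩)
    exact this hx
  let α' := Ideal.Quotient.lift J α fun x hx => (hJ x hx).1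
  let β' := Ideal.Quotient.lift J β fun x hx => (hJ x hx).2.1
  let φ' := Ideal.Quotient.lift J φ fun x hx => (hJ x hx).2.2
  refine M.core T' (fun _ => rfl) (fun _ => rfl) I (fun q => ?_) (η.comp (iU k)) (E 0) (E 1)
    (fun w => ⟨_, (iU_mem w).1, rfl⟩) (fun w => ⟨_, (iU_mem w).2, rfl⟩) (FreeGroup.lift v)
    (α'.toAddMonoidHom.prodMap β'.toAddMonoidHom) φ'.toAddMonoidHom
    (QuotientAddGroup.lift c.ker κ hκ) (fun w => Prod.ext (hw w).1 (hw w).2.1)
    (fun w => (hw w).2.2.1) (fun w => (hw w).2.2.2) (fun x hx => ?_)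
    (hPQ.comap (QuotientAddGroup.kerLift c)) (fun q h1 h2 => ?_) s (fun w hw' h => ?_)
    (fun w hw' h h' => ?_) hs
  · obtain ⟨q, rfl⟩ := QuotientAddGroup.mk_surjective q
    refine ⟨1 - AddMonoidAlgebra.single q 1, by simp [I, ε, RingHom.mem_ker], ?_⟩
    rw [map_sub, map_one]
    rfl
  · have h1 := congrArg φ' ((Algebra.smul_def a x).symm.trans (ha2 x hx))
    rw [map_mul, map_zero] at h1
    exact (mul_eq_zero.1 h1).resolve_left fun h => hn p hp _ ((a4 a).symm.trans h)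
  · rw [map_neg] at h2
    exact QuotientAddGroup.kerLift_injective c ((hPa _ h1 h2).trans (map_zero _).symm)
  · exact (QuotientAddGroup.eq_zero_iff _).2 ((hc _).2
      (Submodule.subset_span ⟨w, s0 w hw' h, rfl⟩))
  · exact Prod.ext (Ideal.Quotient.eq_zero_iff_mem.2 (Ideal.subset_span
      (Or.inr (Or.inl ⟨w, s1 w hw' h h', rfl⟩)))) (Ideal.Quotient.eq_zero_iff_mem.2
      (Ideal.subset_span (Or.inr (Or.inr ⟨w, s1 w hw' h h', rfl⟩))))

theorem approx (U : Finset (FreeGroup (Fin k))) : ∃ n : ℕ, ∀ p > n,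
    ∀ (B : Type) [CommRing B] [Algebra ℚ B] [IsDomain B] [IsNoetherianRing B] (M : Tgt p B)
      (v : Fin k → Tri M.td), ∀ s ⊆ U, (∀ w ∈ s, ¬ M.cone (FreeGroup.lift v w)) → Real s := by
  classical
  choose n hn using approx_data (k := k)
  refine ⟨(U.powerset ×ˢ U.powerset).sup fun x => n x.1 x.2, fun p hp B _ _ _ _ M v s hU hs => ?_⟩
  refine hn (U.filter fun w => (FreeGroup.lift v w).q = 0)
    (U.filter fun w => (FreeGroup.lift v w).pr = 0) p (lt_of_le_of_lt ?_ hp) B M v s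
    (fun w hw => (Finset.mem_filter.1 hw).2) (fun w hw => (Finset.mem_filter.1 hw).2)
    (fun w hw h => Finset.mem_filter.2 ⟨hU hw, h⟩) (fun w hw _ h => Finset.mem_filter.2 ⟨hU hw, h⟩)
    hs
  exact Finset.le_sup (f := fun x : Finset _ × Finset _ => n x.1 x.2) (b := (_, _))
    (Finset.mem_product.2 ⟨Finset.mem_powerset.2 (Finset.filter_subset _ _),
      Finset.mem_powerset.2 (Finset.filter_subset _ _)⟩)

end Pool.Agent.P.MP_84759c_al.IS
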