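import Mathlib
import Pool.Agent.P.MP_84759c_al.IS.Mod

set_option autoImplicit false
set_option linter.unusedSectionVars false

open scoped commutatorElement

namespace Pool.Agent.P.MP_84759c_al.IS

open Pool.Agent.P.MP_84759c_al

namespace Tgt

variable {p : ℕ} {B : Type} [CommRing B] [Algebra ℚ B] (M : Tgt p B)

/-- Elements with bounded entries for the norm at a prime that does not divide `p`. -/
def bdd (l : ℕ) [Fact l.Prime] (h : ¬ l ∣ p) (C : ℚ) (hC : 0 ≤ C) : Subgroup (Tri M.td) :=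
  have n1 : ∀ q, padicNorm l (M.td.ta (M.td.ca q)) = 1 := fun q => by
    rw [M.ta_ca]
    have := map_zpow₀ (IsAbsoluteValue.abvHom (padicNorm l)) (p : ℚ) (q 0 - q 1)
    change padicNorm l _ = padicNorm l _ ^ _ at this
    rw [this, (padicNorm.nat_eq_one_iff p).2 h, one_zpow]
  have n2 : ∀ q, padicNorm l (M.td.tb (M.td.cb q)) = 1 := fun q => by rw [← M.td.compat, n1]
  { carrier := {g | padicNorm l (M.td.ta g.f) ≤ C ∧ padicNorm l (M.td.tb g.g) ≤ C ∧
      padicNorm l g.z ≤ C * C}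
    one_mem' := by simpa [hC] using mul_nonneg hC hC
    mul_mem' := by
      rintro a b ⟨a1, a2, a3⟩ ⟨b1, b2, b3⟩
      simp only [Set.mem_ofPred_eq, Tri.mul_f, Tri.mul_g, Tri.mul_z, map_add, map_mul]
      refine ⟨padicNorm.nonarchimedean.trans (max_le ?_ b1),
        padicNorm.nonarchimedean.trans (max_le a2 ?_), padicNorm.nonarchimedean.trans
          (max_le (padicNorm.nonarchimedean.trans (max_le a3 b3)) ?_)⟩
      · rwa [padicNorm.mul, n1, mul_one]
      · rwa [padicNorm.mul, n2, one_mul]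
      · rw [padicNorm.mul]
        exact mul_le_mul a1 b2 (padicNorm.nonneg _) hC
    inv_mem' := by
      rintro a ⟨a1, a2, a3⟩
      simp only [Set.mem_ofPred_eq, Tri.inv_f, Tri.inv_g, Tri.inv_z, map_neg, map_mul,
        padicNorm.neg, padicNorm.mul, n1, n2, mul_one, one_mul]
      refine ⟨a1, a2, padicNorm.nonarchimedean.trans (max_le (by rwa [padicNorm.neg]) ?_)⟩
      simp only [padicNorm.mul, n2, one_mul]
      exact mul_le_mul a1 a2 (padicNorm.nonneg _) hC }

theorem exists_bdd (l : ℕ) [Fact l.Prime] (h : ¬ l ∣ p) (x y a : Tri M.td) :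
    ∃ C : ℚ, ∀ j, padicNorm l (bb x y a j).z ≤ C := by
  let n : Tri M.td → ℚ := fun g =>
    padicNorm l (M.td.ta g.f) + padicNorm l (M.td.tb g.g) + padicNorm l g.z
  have n0 : ∀ g, 0 ≤ n g := fun g =>
    add_nonneg (add_nonneg (padicNorm.nonneg _) (padicNorm.nonneg _)) (padicNorm.nonneg _)
  have hC : 0 ≤ 1 + n x + n y + n a := by linarith [n0 x, n0 y, n0 a]
  have key : ∀ g, n g + 1 ≤ 1 + n x + n y + n a → g ∈ M.bdd l h _ hC := fun g hg => by
    have h1 := padicNorm.nonneg (p := l) (M.td.ta g.f)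
    have h2 := padicNorm.nonneg (p := l) (M.td.tb g.g)
    have h3 := padicNorm.nonneg (p := l) g.z
    generalize 1 + n x + n y + n a = C at *
    simp only [n] at hg
    exact ⟨by linarith, by linarith, by nlinarith⟩
  have hx := key x (by linarith [n0 y, n0 a])
  have hy := key y (by linarith [n0 x, n0 a])
  have ha := key a (by linarith [n0 x, n0 y])
  refine ⟨_, fun j => (?_ : bb x y a j ∈ M.bdd l h _ hC).2.2⟩
  have := mul_mem (mul_mem (zpow_mem ha (-j)) hx) (zpow_mem ha j)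
  exact mul_mem (mul_mem (mul_mem this hy) (inv_mem this)) (inv_mem hy)

end Tgt

theorem ole {N : Type*} [Group N] [LinearOrder N] [MulLeftMono N] {u v : N} :
    1 ≤ u⁻¹ * v ↔ u ≤ v := by rw [le_inv_mul_iff_mul_le, mul_one]

theorem zero_of_bdd (l : ℕ) [hl : Fact l.Prime] (ξ : ℤ → ℚ) (h : ∀ j, ξ (j + 1) = l * ξ j) (C : ℚ)
    (hC : ∀ j, padicNorm l (ξ j) ≤ C) : ξ 0 = 0 := by
  have h1 : (1 : ℚ) < l := by exact_mod_cast hl.out.one_lt
  have key : ∀ n : ℕ, padicNorm l (ξ (-n)) = l ^ n * padicNorm l (ξ 0) := fun n => by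
    induction n with
    | zero => simp
    | succ n ih =>
      have := h (-(n + 1 : ℕ))
      rw [show (-(n + 1 : ℕ) + 1 : ℤ) = -n by push_cast; ring] at this
      rw [this, padicNorm.mul, padicNorm.padicNorm_p hl.out.one_lt,
        inv_mul_eq_iff_eq_mul₀ (by positivity)] at ih
      rw [ih]
      ring
  by_contra h0
  have h2 : 0 < padicNorm l (ξ 0) :=
    lt_of_le_of_ne (padicNorm.nonneg _) (padicNorm.nonzero h0).symm
  obtain ⟨n, hn⟩ := pow_unbounded_of_one_lt (C / padicNorm l (ξ 0)) h1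
  rw [div_lt_iff₀ h2, ← key] at hn
  exact hn.not_ge (hC _)

namespace Tgt

variable {p : ℕ} {B : Type} [CommRing B] [Algebra ℚ B] (M : Tgt p B) [IsDomain B]
  [IsNoetherianRing B] [LinearOrder (Tri M.td)] [MulLeftMono (Tri M.td)] [MulRightMono (Tri M.td)]

theorem sep (ho : ∀ a : Tri M.td, 1 ≤ a ↔ M.cone a) {l : ℕ} (hl : l.Prime) (h : ¬ l ∣ p)
    {x y a t : Tri M.td} (hb : Bd l x y a t) : 1 ≤ rD x y a := by
  have := Fact.mk hl
  have hdq : ∀ u v : Tri M.td, ⁅u, v⁆.q = 0 := fun u v => by simp [commutatorElement_def]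
  by_cases hd : ⁅x, y⁆.pr = 0
  · have ed := M.eq_cz (hdq x y) hd
    have c : ∀ r : Tri M.td, r ≤ ⁅x, y⁆ ∧ r⁻¹ ≤ ⁅x, y⁆ → r.q = 0 ∧ r.pr = 0 := fun r hr => by
      have h1 := (ho _).1 (ole.2 (hr.2.trans_eq ed))
      rw [inv_inv] at h1
      exact M.convex h1 ((ho _).1 (ole.2 (hr.1.trans_eq ed)))
    have cc : ∀ r : Tri M.td, r.q = 0 ∧ r.pr = 0 → r ∈ Subgroup.center (Tri M.td) := fun r hr => by
      rw [M.eq_cz hr.1 hr.2]; exact M.cz_central _
    have hj : ∀ j, (bb x y a j).q = 0 ∧ (bb x y a j).pr = 0 := fun j => by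
      have key : ∀ m, M.cm (fun i => i < m) (bb x y a j).pr ∧
          M.cm (fun i => i < m) (-(bb x y a j).pr) := fun m => by
        obtain ⟨N, _, _, π, _, _, _, hπ⟩ := M.exists_nil m
        have hC : IsACone (M.cm fun j => j < m) := M.hP.isACone fun j hj => by omega
        have k0 : ∀ r : Tri M.td, r.q = 0 ∧ r.pr = 0 → 1 ≤ π r := fun r hr =>
          (hπ r).2 ⟨hr.1 ▸ M.hQ.zero, fun _ => ⟨hr.2 ▸ hC.zero, fun _ => le_rfl⟩⟩
        have k1 : ∀ r : Tri M.td, r.q = 0 ∧ r.pr = 0 → π r = 1 := fun r hr =>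
          le_antisymm (one_le_inv'.1 (map_inv π r ▸
            k0 r⁻¹ ⟨by simp [hr.1], by rw [Tri.pr_inv hr.1, hr.2, neg_zero]⟩)) (k0 r hr)
        have e := const_nil hl.two_le N tf_of_order (π x) (π y) (π a) (π t)
          (by rw [← map_mul, ← map_commutatorElement, k1 _ (c _ hb.1)]; exact one_mem _)
          (by rw [← map_commutatorElement, k1 _ (c _ hb.2.1)]; exact one_mem _)
          (by rw [← map_rC, k1 _ (c _ hb.2.2)]; exact one_mem _)
          (by rw [← map_commutatorElement, k1 _ ⟨hdq _ _, hd⟩]; exact one_mem _) j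
        rw [← map_bb, ← map_commutatorElement, k1 _ ⟨hdq _ _, hd⟩] at e
        refine ⟨(((hπ _).1 e.ge).2 (hdq _ _)).1, ?_⟩
        rw [← Tri.pr_inv (a := bb x y a j) (hdq _ _)]
        exact (((hπ (bb x y a j)⁻¹).1 (by rw [map_inv, e, inv_one])).2
          (by rw [Tri.inv_q, bb, hdq, neg_zero])).1
      exact ⟨hdq _ _, M.cm_anti (fun i _ => (key (i + 1)).1 i (Nat.lt_succ_self i))
        fun i _ => (key (i + 1)).2 i (Nat.lt_succ_self i)⟩
    have hr := rec_of_central l x y a t (cc _ (c _ hb.1)) (cc _ (c _ hb.2.1)) (cc _ (c _ hb.2.2))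
      fun j => cc _ (hj j)
    obtain ⟨C, hC⟩ := M.exists_bdd l h x y a
    have h0 := zero_of_bdd l (fun j => (bb x y a (j + 1)).z - (bb x y a j).z) (fun j => by
      have := hr j
      rw [M.eq_cz (hj j).1 (hj j).2, M.eq_cz (hj (j + 1)).1 (hj _).2,
        M.eq_cz (hj (j + 1 + 1)).1 (hj _).2, ← map_inv (cz M.td), ← map_inv (cz M.td),
        ← map_mul (cz M.td), ← map_mul (cz M.td), ← map_pow (cz M.td)] at this
      have := congrArg Tri.z this
      simp only [cz, MonoidHom.mk'_apply, toAdd_mul, toAdd_inv, toAdd_ofAdd, toAdd_pow,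
        nsmul_eq_mul] at this
      linarith) C fun j => padicNorm.sub.trans (max_le (hC _) (hC _))
    have e : bb x y a 1 = ⁅x, y⁆ := by
      rw [M.eq_cz (hj 1).1 (hj 1).2, ← bb_zero x y a, M.eq_cz (hj 0).1 (hj 0).2]
      congr 2
      simpa [sub_eq_zero] using h0
    rw [rD, comm_conj (cc _ (hj 1)), e, pow_succ _ 2, inv_mul_cancel_left]
    exact hb.one_le
  · obtain ⟨m, hm⟩ := M.cm_lev (-⁅x, y⁆.pr)
    obtain ⟨N, _, _, π, _, _, _, hπ⟩ := M.exists_nil m
    have mono : ∀ u v, u ≤ v → π u ≤ π v := fun u v huv => by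
      obtain ⟨h1, h2⟩ := (ho _).1 (ole.2 huv)
      have := (hπ (u⁻¹ * v)).2 ⟨h1, fun hq => ⟨fun j _ => (h2 hq).1 j trivial, fun _ => le_rfl⟩⟩
      rwa [map_mul, map_inv, ole] at this
    have hb' : Bd l (π x) (π y) (π a) (π t) := by
      simp only [Bd, ← map_mul, ← map_commutatorElement, ← map_rC, ← map_inv]
      exact ⟨⟨mono _ _ hb.1.1, mono _ _ hb.1.2⟩, ⟨mono _ _ hb.2.1.1, mono _ _ hb.2.1.2⟩,
        mono _ _ hb.2.2.1, mono _ _ hb.2.2.2⟩
    have h1 := (nil_key hl.two_le hb').2 (lt_of_not_ge fun hc => hd (by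
      rw [← map_commutatorElement, ← one_le_inv', ← map_inv, hπ] at hc
      have h2 := (hc.2 (by rw [Tri.inv_q, hdq, neg_zero])).1
      rw [Tri.pr_inv (hdq _ _)] at h2
      exact M.cm_anti (((ho _).1 hb.one_le).2 (hdq _ _)).1 (hm m le_rfl h2)))
    rw [← map_rD] at h1
    exact le_of_not_ge fun hc => h1.not_ge (by simpa using mono _ _ hc)

end Tgt

end Pool.Agent.P.MP_84759c_al.IS
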