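import Mathlib
import Pool.Agent.P.MP_84759c_al.LGroup
import Pool.Agent.P.MP_84759c_al.IR.Defs
import Pool.Agent.P.MP_84759c_al.IS.Approx
import Pool.Agent.P.MP_84759c_al.IS.Sep

set_option autoImplicit false
set_option linter.unusedSectionVars false

open scoped commutatorElement

namespace Pool.Agent.P.MP_84759c_al.IS

open Pool.Agent.P.MP_84759c_al Pool.Agent.P.MP_84759c_al.IR

open Classical in
/-- The group words that occur in a term. -/
noncomputable def wd {α : Type} : Term α → Finset (FreeGroup α)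
  | .var a => {FreeGroup.of a}
  | .one => {1}
  | .mul s t => Finset.image₂ (· * ·) (wd s) (wd t)
  | .inv s => (wd s).image (·⁻¹)
  | .inf s t => wd s ∪ wd t
  | .sup s t => wd s ∪ wd t

theorem exists_wd {α : Type} (u : Term α) : ∀ (G N : Type) [Group G] [LinearOrder G]
    [MulLeftMono G] [MulRightMono G] [Group N] [LinearOrder N] [MulLeftMono N] [MulRightMono N]
    (v : α → G) (v' : α → N),
    ∃ w ∈ wd u, FreeGroup.lift v w ≤ u.eval v ∧ u.eval v' ≤ FreeGroup.lift v' w := by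
  classical
  induction u with
  | var a => exact fun G N _ _ _ _ _ _ _ _ v v' => ⟨.of a, by simp [wd], by simp [Term.eval]⟩
  | one => exact fun G N _ _ _ _ _ _ _ _ v v' => ⟨1, by simp [wd], by simp [Term.eval]⟩
  | mul s t hs ht =>
    intro G N _ _ _ _ _ _ _ _ v v'
    obtain ⟨x, hx, a1, a2⟩ := hs G N v v'
    obtain ⟨y, hy, b1, b2⟩ := ht G N v v'
    refine ⟨x * y, ?_, ?_, ?_⟩
    · simp only [wd, Finset.mem_image₂]
      exact ⟨x, hx, y, hy, rfl⟩
    · rw [map_mul]; exact mul_le_mul' a1 b1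
    · rw [map_mul]; exact mul_le_mul' a2 b2
  | inv s hs =>
    intro G N _ _ _ _ _ _ _ _ v v'
    obtain ⟨x, hx, a1, a2⟩ := hs N G v' v
    refine ⟨x⁻¹, ?_, ?_, ?_⟩
    · simp only [wd, Finset.mem_image]
      exact ⟨x, hx, rfl⟩
    · rw [map_inv]; exact inv_le_inv_iff.mpr a2
    · rw [map_inv]; exact inv_le_inv_iff.mpr a1
  | inf s t hs ht =>
    intro G N _ _ _ _ _ _ _ _ v v'
    obtain ⟨x, hx, a1, a2⟩ := hs G N v v'
    obtain ⟨y, hy, b1, b2⟩ := ht G N v v'
    rcases le_total (s.eval v) (t.eval v) with h | h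
    · exact ⟨x, by simp [wd, hx], le_inf a1 (a1.trans h), le_trans inf_le_left a2⟩
    · exact ⟨y, by simp [wd, hy], le_inf (b1.trans h) b1, le_trans inf_le_right b2⟩
  | sup s t hs ht =>
    intro G N _ _ _ _ _ _ _ _ v v'
    obtain ⟨x, hx, a1, a2⟩ := hs G N v v'
    obtain ⟨y, hy, b1, b2⟩ := ht G N v v'
    rcases le_total (s.eval v') (t.eval v') with h | h
    · exact ⟨y, by simp [wd, hy], le_trans b1 le_sup_right, sup_le (h.trans b2) b2⟩
    · exact ⟨x, by simp [wd, hx], le_trans a1 le_sup_left, sup_le a2 (h.trans a2)⟩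

theorem exists_term {α : Type} (w : FreeGroup α) : ∃ u : Term α,
    ∀ (G : Type) [Group G] [Lattice G] (v : α → G), u.eval v = FreeGroup.lift v w := by
  induction w using FreeGroup.induction_on with
  | C1 => exact ⟨.one, fun G _ _ v => by simp [Term.eval]⟩
  | of i => exact ⟨.var i, fun G _ _ v => by simp [Term.eval]⟩
  | inv_of i ih =>
    obtain ⟨u, hu⟩ := ih
    exact ⟨.inv u, fun G _ _ v => by rw [map_inv, ← hu]; rfl⟩
  | mul a b ha hb =>
    obtain ⟨u, hu⟩ := ha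
    obtain ⟨u', hu'⟩ := hb
    exact ⟨.mul u u', fun G _ _ v => by rw [map_mul, ← hu, ← hu']; rfl⟩

/-- The join of the seven words of the identity with parameter `p`. -/
def FF {G : Type} [Group G] [Lattice G] (p : ℕ) (x y a t : G) : G :=
  rD x y a ⊔ (((⁅x, y⁆⁻¹ * ⁅x, a * t⁆ ⊔ ⁅x, y⁆⁻¹ * ⁅x, a * t⁆⁻¹) ⊔
    (⁅x, y⁆⁻¹ * ⁅a, t⁆ ⊔ ⁅x, y⁆⁻¹ * ⁅a, t⁆⁻¹)) ⊔
    (⁅x, y⁆⁻¹ * rC p y a t ⊔ ⁅x, y⁆⁻¹ * (rC p y a t)⁻¹))

theorem exists_FF (p : ℕ) : ∃ u : Term (Fin 4), ∀ (G : Type) [Group G] [Lattice G],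
    Holds G u .one ↔ ∀ x y a t : G, 1 ≤ FF p x y a t := by
  choose τ hτ using exists_term (α := Fin 4)
  let x : FreeGroup (Fin 4) := .of 0
  let y : FreeGroup (Fin 4) := .of 1
  let a : FreeGroup (Fin 4) := .of 2
  let t : FreeGroup (Fin 4) := .of 3
  let σ := fun r => Term.sup (τ (⁅x, y⁆⁻¹ * r)) (τ (⁅x, y⁆⁻¹ * r⁻¹))
  refine ⟨.inf (.sup (τ (rD x y a)) (.sup (.sup (σ ⁅x, a * t⁆) (σ ⁅a, t⁆)) (σ (rC p y a t)))) .one,
    fun G _ _ => ?_⟩
  have e : ∀ v : Fin 4 → G, (Term.sup (τ (rD x y a)) (.sup (.sup (σ ⁅x, a * t⁆) (σ ⁅a, t⁆))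
      (σ (rC p y a t)))).eval v = FF p (v 0) (v 1) (v 2) (v 3) := fun v => by
    simp only [Term.eval, σ, hτ, map_rD, map_rC, map_mul, map_inv, map_commutatorElement, x, y, a,
      t, FreeGroup.lift_apply_of, FF]
  refine ⟨fun h x' y' a' t' => ?_, fun h v => ?_⟩
  · have := h ![x', y', a', t']
    change Term.eval _ _ ⊓ 1 = 1 at this
    rw [e, inf_eq_right] at this
    exact this
  · change Term.eval _ _ ⊓ 1 = 1
    rw [e, inf_eq_right]
    exact h _ _ _ _

theorem FF_of {G N : Type} [Group G] [Lattice G] [Group N] [LinearOrder N] [MulLeftMono N]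
    [MulRightMono N] (π : G →* N) {p : ℕ} {x y a t : G} (h : ∀ z ≤ FF p x y a t, ¬ 1 ≤ π z) :
    Bd p (π x) (π y) (π a) (π t) ∧ ¬ 1 ≤ rD (π x) (π y) (π a) := by
  have k : ∀ r, ⁅x, y⁆⁻¹ * r ⊔ ⁅x, y⁆⁻¹ * r⁻¹ ≤ FF p x y a t →
      π r ≤ ⁅π x, π y⁆ ∧ (π r)⁻¹ ≤ ⁅π x, π y⁆ := fun r hr => by
    have h1 := h _ (le_sup_left.trans hr)
    have h2 := h _ (le_sup_right.trans hr)
    simp only [map_mul, map_inv, map_commutatorElement, ole, not_le] at h1 h2
    exact ⟨h1.le, h2.le⟩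
  refine ⟨⟨?_, ?_, ?_⟩, by rw [← map_rD]; exact h _ le_sup_left⟩
  · simpa only [map_mul, map_commutatorElement] using
      k _ (le_sup_left.trans (le_sup_left.trans le_sup_right))
  · simpa only [map_mul, map_commutatorElement] using
      k _ (le_sup_right.trans (le_sup_left.trans le_sup_right))
  · simpa only [map_rC] using k _ (le_sup_right.trans le_sup_right)

theorem FF_nil {H : Type} [Group H] [Lattice H] [MulLeftMono H] [MulRightMono H]
    (hH : Group.IsNilpotent H) {p : ℕ} (hp : 2 ≤ p) (x y a t : H) : 1 ≤ FF p x y a t := by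
  by_contra hcon
  obtain ⟨C, hC, hCu⟩ := exists_tcone hcon
  obtain ⟨N, _, _, π, hl, hr, hs, hπ⟩ := hC.exists_quot
  have hN : Group.IsNilpotent N := Group.nilpotent_of_surjective π hs
  obtain ⟨h1, h2⟩ := FF_of π fun z hz => by rw [hπ]; exact hCu z hz
  exact h2 (nil_key hp h1).1

theorem independent_system : ∃ (G : ℕ → Type) (_ : ∀ n, Group (G n))
    (_ : ∀ n, LinearOrder (G n)) (s t : ℕ → Term (Fin 4)),
    (∀ n, MulLeftMono (G n) ∧ MulRightMono (G n) ∧
      derivedSeries (G n) 2 ≤ Subgroup.center (G n)) ∧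
    (∀ (n : ℕ) (H : Type) [Group H] [Lattice H] [MulLeftMono H] [MulRightMono H],
      Group.IsNilpotent H → Holds H (s n) (t n)) ∧
    (∀ m n, Holds (G n) (s m) (t m) ↔ m ≠ n) ∧
    ∀ (k : ℕ) (u w : Term (Fin k)),
      (∀ (H : Type) [Group H] [LinearOrder H] [MulLeftMono H] [MulRightMono H],
        Group.IsNilpotent H → derivedSeries H 2 ≤ Subgroup.center H → Holds H u w) →
      {n | ¬ Holds (G n) u w}.Finite := by
  classical
  let P := Nat.nth Nat.Prime
  have hP : ∀ n, (P n).Prime := Nat.prime_nth_prime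
  have h0 : ∀ n, ∃ (B : Type) (_ : CommRing B) (_ : Algebra ℚ B) (_ : IsDomain B)
      (_ : IsNoetherianRing B) (M : Tgt (P n) B) (_ : LinearOrder (Tri M.td)),
      MulLeftMono (Tri M.td) ∧ MulRightMono (Tri M.td) ∧ ∀ a : Tri M.td, 1 ≤ a ↔ M.cone a := by
    intro n
    obtain ⟨B, _, _, _, _, ⟨M⟩⟩ := exists_tgt (hP n).ne_zero
    obtain ⟨o, h⟩ := IsTCone.exists_order M.tcone M.cone_anti
    exact ⟨B, _, _, inferInstance, inferInstance, M, o, h⟩
  choose B i1 i2 i3 i4 M o hl hr ho using h0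
  choose s hs using exists_FF
  refine ⟨fun n => Tri (M n).td, inferInstance, o, fun n => s (P n), fun _ => .one,
    fun n => ⟨hl n, hr n, tri_cbm _⟩, fun n H _ _ _ _ hH => (hs _ H).2 (FF_nil hH (hP n).two_le),
    fun m n => ?_, fun k u w h => ?_⟩
  · have := hl n
    have := hr n
    rw [hs]
    refine ⟨?_, fun hmn x y a t => ?_⟩
    · rintro h rfl
      obtain ⟨x, y, a, t, h1, h2, h3, h4, h5⟩ := (M m).exists_tuple
      have h6 := h x y a t
      have h7 : (2 : ℚ) ≤ P m := by exact_mod_cast (hP m).two_le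
      simp only [FF, h1, h2, h3, h4, h5, inv_one, mul_one, sup_idem, ← map_inv,
        ← ofAdd_neg] at h6
      rw [le_sup_iff, ho, ho, Tgt.cone_cz, Tgt.cone_cz] at h6
      rcases h6 with h6 | h6 <;> linarith
    · by_contra hcon
      obtain ⟨h1, h2⟩ := FF_of (MonoidHom.id _) fun z hz h => hcon (le_trans h hz)
      refine h2 ((M n).sep (ho n) (hP m) (fun hd => hmn ?_) h1)
      exact Nat.nth_injective Nat.infinite_setOfPred_prime
        ((Nat.prime_dvd_prime_iff_eq (hP m) (hP n)).1 hd)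
  · obtain ⟨c, hc⟩ := approx (wd (.mul u (.inv w)) ∪ wd (.mul w (.inv u)))
    refine (Set.finite_le_nat c).subset fun n hn => ?_
    by_contra hlt
    have := hl n
    have := hr n
    refine hn fun v => ?_
    obtain ⟨N, _, _, _, _, hN, hcN, π, hπ⟩ := hc (P n)
      (lt_of_lt_of_le (not_le.1 hlt) ((Nat.le_add_right n 2).trans (Nat.add_two_le_nth_prime n)))
      (B n) (M n) v _ (Finset.filter_subset (fun x => ¬ 1 ≤ FreeGroup.lift v x) _)
      fun x hx => by rw [← ho]; exact (Finset.mem_filter.1 hx).2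
    have e : FreeGroup.lift (fun i => π (.of i)) = π := by ext; simp
    have key : ∀ u' w' : Term (Fin k), wd (.mul u' (.inv w')) ⊆
        wd (.mul u (.inv w)) ∪ wd (.mul w (.inv u)) → Holds N u' w' → w'.eval v ≤ u'.eval v := by
      intro u' w' h1 h2
      obtain ⟨x, hx, a1, a2⟩ := exists_wd (.mul u' (.inv w')) _ N v fun i => π (.of i)
      change _ ≤ u'.eval v * (w'.eval v)⁻¹ at a1
      change u'.eval _ * (w'.eval _)⁻¹ ≤ _ at a2
      rw [h2, mul_inv_cancel, e] at a2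
      by_contra hcon
      refine hπ x (Finset.mem_filter.2 ⟨h1 hx, fun h3 => hcon ?_⟩) a2
      have := h3.trans a1
      rwa [le_mul_inv_iff_mul_le, one_mul] at this
    exact le_antisymm (key w u Finset.subset_union_right fun x => (h N hN hcN x).symm)
      (key u w Finset.subset_union_left (h N hN hcN))

end Pool.Agent.P.MP_84759c_al.IS
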